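import Pool.Agent.J6H99.NX.Chain
import Pool.Agent.J6H99.NX.ClG
import Pool.Agent.J6H48.NX.First
import Pool.Agent.J6H48.NX.Law
import Pool.Agent.J6H23.NX.Core
import Pool.Agent.J6H23.NX.Cover
import Pool.Agent.J6H59.NX.ClGeo
import Pool.Agent.J6H75.NX.SS
import Pool.Agent.J6H75.NX.Reach
import Pool.Agent.J6H19.NX.Grow
import Pool.Agent.J6H72.NX.Power
import Pool.Agent.J6H81.NX.U
import Pool.Agent.J6H54.NX.Ray2
import Pool.Agent.J6H33.NX.Transfer
import Pool.Agent.J6H47.NX.Fin13
import Pool.Agent.J6H67.NX.Res13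

/-!
# First-passage percolation: infinitely many geodesic rays from the origin

Dimensions two and three, continuous passage times with an exponential moment.
-/

set_option autoImplicit false

open MeasureTheory ProbabilityTheory Filter Topology
open scoped ENNReal

namespace Pool.Agent.Results.MP_13b103_pr.InfinitelyManyRays

/-- **Infinitely many geodesic rays.** In dimensions two and three, for independent passage times with a
common continuous law on `[0, ∞)` which has an exponential moment, almost surely infinitely many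
geodesic rays start at the origin. The statement is the frozen statement `S19167` with `d ≤ 3` and the
moment hypothesis added. -/
theorem result :
  ∀ (d : ℕ), 2 ≤ d → d ≤ 3 →
  ∀ (μ : Measure ℝ), IsProbabilityMeasure μ → NoAtoms μ → μ (Set.Iio 0) = 0 →
    (∃ β : ℝ, 0 < β ∧ Integrable (fun x => Real.exp (β * x)) μ) →
  ∀ (Ω : Type) (mΩ : MeasurableSpace Ω) (P : Measure Ω), IsProbabilityMeasure P →
  ∀ (t : Sym2 (Fin d → ℤ) → Ω → ℝ),
    (∀ e, Measurable (t e)) →
    iIndepFun
      (fun e : {e : Sym2 (Fin d → ℤ) //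
          ∃ x y : Fin d → ℤ, e = s(x, y) ∧ ∑ i, |x i - y i| = 1} => t e.1)
      P →
    (∀ x y : Fin d → ℤ, ∑ i, |x i - y i| = 1 →
      Measure.map (t s(x, y)) P = μ) →
    ∀ᵐ ω ∂P,
      Set.Infinite {γ : ℕ → (Fin d → ℤ) |
        γ 0 = 0 ∧ Function.Injective γ ∧
        (∀ k, ∑ i, |γ k i - γ (k + 1) i| = 1) ∧
        ∀ m n : ℕ, m ≤ n →
          ∀ (L : ℕ) (q : ℕ → (Fin d → ℤ)), q 0 = γ m → q L = γ n →
            (∀ k < L, ∑ i, |q k i - q (k + 1) i| = 1) →
            ∑ k ∈ Finset.range (n - m), t s(γ (m + k), γ (m + k + 1)) ω ≤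
              ∑ k ∈ Finset.range L, t s(q k, q (k + 1)) ω} :=
  Pool.Agent.J6H67.NX.res13
    (Pool.Agent.J6H47.NX.fin13_of
      (Pool.Agent.J6H59.NX.clgeo
        (Pool.Agent.J6H23.NX.Core.core Pool.Agent.J6H48.NX.first Pool.Agent.J6H99.NX.trials
          Pool.Agent.J6H99.NX.chain))
      Pool.Agent.J6H75.NX.SS.ss Pool.Agent.J6H19.NX.grow Pool.Agent.J6H72.NX.power
      Pool.Agent.J6H81.NX.u Pool.Agent.J6H75.NX.Reach.reach Pool.Agent.J6H48.NX.law
      Pool.Agent.J6H54.NX.ray2 Pool.Agent.J6H23.NX.cover)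
    Pool.Agent.J6H33.NX.transfer

end Pool.Agent.Results.MP_13b103_pr.InfinitelyManyRays
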